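import Pool.Agent.H32.WordRep2

namespace Pool.Agent.Results.MP_c3beeb_co.NoFinite

open Pool.Agent.H32.WordRep SimpleGraph Classical

/-- `x` and `y` alternate in `w`: both occur, and after deleting all other letters no two
neighbouring letters are equal (so the word left is `xyxy⋯` or `yxyx⋯`). -/
def Alternate {V : Type} (w : List V) (x y : V) : Prop :=
  x ∈ w ∧ y ∈ w ∧ (w.filter fun z => z = x ∨ z = y).IsChain (· ≠ ·)

/-- word-representable graphs -/
def Representable {V : Type} (G : SimpleGraph V) : Prop :=
  ∃ w : List V, (∀ v, v ∈ w) ∧ ∀ x y, x ≠ y → (G.Adj x y ↔ Alternate w x y)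

def wheel (n : ℕ) : SimpleGraph (Option (ZMod n)) := SimpleGraph.fromRel fun u v =>
  match u, v with
  | none, _ => True
  | some _, none => False
  | some i, some j => j = i + 1

def fan (n : ℕ) : SimpleGraph (Option (ZMod n)) := SimpleGraph.fromRel fun u v =>
  match u, v with
  | none, _ => True
  | some _, none => False
  | some i, some j => j.val = i.val + 1

theorem wheel_not (n : ℕ) (hn : 4 ≤ n) : ¬ Representable (wheel n).lineGraph := by
  rintro ⟨w, hw, h⟩
  have e1 : (1 : ZMod n) ≠ 0 := by simpa using cast_ne (n := n) 1 (by omega) (by omega)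
  have e2 : (2 : ZMod n) ≠ 0 := by simpa using cast_ne (n := n) 2 (by omega) (by omega)
  have e3 : (3 : ZMod n) ≠ 0 := by simpa using cast_ne (n := n) 3 (by omega) (by omega)
  let s : ZMod n → (wheel n).edgeSet := fun i => ⟨s(none, some i), by simp [wheel]⟩
  let e : ZMod n → (wheel n).edgeSet := fun i => ⟨s(some i, some (i + 1)), by simp [wheel, e1]⟩
  let N := cnt w
  have key : ∀ x y : (wheel n).edgeSet, x ≠ y →
      ((∃ v, v ∈ x.1 ∧ v ∈ y.1) ↔ Alt (N x) (N y)) := by
    intro x y hxy
    have h1 := h x y hxy
    rw [lineGraph_adj_iff_exists] at h1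
    unfold Alternate at h1
    simp only [hxy, ne_eq, not_false_eq_true, true_and, hw] at h1
    rw [h1]
    exact Iff.trans (alt_iff' w x y hxy _ fun z => @decide_eq_true_iff _ (_)) (P_alt w x y)
  have es : ∀ i j, e i ≠ s j := fun i j k => by simp [e, s] at k
  refine Wh.false (n := n) (S := fun i => N (s i)) (E := fun i => N (e i))
    ⟨fun i j hij => ?_, fun i => ?_, fun i => ?_, fun i => ?_, fun i j q1 q2 => ?_, fun i => ?_⟩ hn
  · have hne : s i ≠ s j := fun k => by simp [s, hij] at k
    exact ⟨(key _ _ hne).1 ⟨none, by simp [s]⟩, df_cnt w _ _ hne (hw _)⟩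
  · exact (key _ _ (es _ _)).1 ⟨some i, by simp [e, s]⟩
  · exact (key _ _ (es _ _)).1 ⟨some (i + 1), by simp [e, s]⟩
  · refine (key _ _ fun k => ?_).1 ⟨some (i + 1), by simp [e]⟩
    simp only [e, Subtype.mk.injEq, Sym2.eq_iff, Option.some.injEq] at k
    rcases k with k | k
    · exact e1 (by linear_combination -k.1)
    · exact e2 (by linear_combination -k.1)
  · rw [← key _ _ (es _ _)]
    rintro ⟨v, a, b⟩
    simp only [e, s, Sym2.mem_iff] at a b
    rcases a with rfl | rfl <;> simp [q1.symm, q2.symm] at b
  · rw [← key]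
    · rintro ⟨v, a, b⟩
      simp only [e, Sym2.mem_iff] at a b
      rcases a with rfl | rfl <;> rcases b with b | b <;> rw [Option.some.injEq] at b
      · exact e2 (by linear_combination -b)
      · exact e3 (by linear_combination -b)
      · exact e1 (by linear_combination -b)
      · exact e2 (by linear_combination -b)
    · intro k
      simp only [e, Subtype.mk.injEq, Sym2.eq_iff, Option.some.injEq] at k
      rcases k with k | k
      · exact e2 (by linear_combination -k.1)
      · exact e3 (by linear_combination -k.1)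

def ta (n : ℕ) : Sym2 (Option (ZMod n)) → ℕ := Sym2.lift ⟨fun u v =>
  match u, v with
  | none, none => 0
  | none, some i => 3 * i.val + 1
  | some i, none => 3 * i.val + 1
  | some i, some j => 3 * min i.val j.val, by
    rintro (_ | i) (_ | j) <;> simp [min_comm]⟩

def tb (n : ℕ) : Sym2 (Option (ZMod n)) → ℕ := Sym2.lift ⟨fun u v =>
  match u, v with
  | some i, some j => 3 * min i.val j.val + 5
  | _, _ => 3 * n, by
    rintro (_ | i) (_ | j) <;> simp [min_comm]⟩

theorem edge_cases (n : ℕ) (x : (fan n).edgeSet) :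
    (∃ i : ZMod n, x.1 = s(none, some i) ∧ ta n x.1 = 3 * i.val + 1 ∧ tb n x.1 = 3 * n) ∨
    (∃ i j : ZMod n, j.val = i.val + 1 ∧ x.1 = s(some i, some j) ∧ ta n x.1 = 3 * i.val ∧
      tb n x.1 = 3 * i.val + 5) := by
  obtain ⟨x, hx⟩ := x
  induction x using Sym2.ind with | _ u v => ?_
  rcases u with _ | i <;> rcases v with _ | j
  · simp at hx
  · exact Or.inl ⟨j, rfl, rfl, rfl⟩
  · exact Or.inl ⟨i, Sym2.eq_swap, rfl, rfl⟩
  · right
    simp only [fan, mem_edgeSet, fromRel_adj] at hx
    rcases hx.2 with k | k
    · exact ⟨i, j, k, rfl, by simp [ta, k], by simp [tb, k]⟩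
    · exact ⟨j, i, k, Sym2.eq_swap, by simp [ta, k], by simp [tb, k]⟩

theorem fan_rep (n : ℕ) [NeZero n] : Representable (fan n).lineGraph := by
  have vi : ∀ i j : ZMod n, i = j ↔ i.val = j.val := fun i j => (ZMod.val_injective n).eq_iff.symm
  obtain ⟨w, hw, h⟩ := word_of_times (V := (fan n).edgeSet) (fun x => ta n x.1) (fun x => tb n x.1)
    (3 * n) (fun x => by
      rcases edge_cases n x with ⟨i, -, a, b⟩ | ⟨i, j, k, -, a, b⟩ <;>
      have := ZMod.val_lt i <;> omega) (fun x => by
      rcases edge_cases n x with ⟨i, -, a, b⟩ | ⟨i, j, k, -, a, b⟩ <;>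
      have := ZMod.val_lt i <;> omega) (fun x y s hs h1 h2 => by
      apply Subtype.ext
      rcases edge_cases n x with ⟨i, c, a, b⟩ | ⟨i, j, k, c, a, b⟩ <;>
      rcases edge_cases n y with ⟨i', c', a', b'⟩ | ⟨i', j', k', c', a', b'⟩ <;>
      rw [a, b] at h1 <;> rw [a', b'] at h2 <;> rw [c, c']
      · rw [(vi i i').2 (by omega)]
      · omega
      · omega
      · rw [(vi i i').2 (by omega), (vi j j').2 (by omega)])
  refine ⟨w, hw, fun x y hxy => ?_⟩
  unfold Alternate
  rw [lineGraph_adj_iff_exists]
  simp only [hxy, ne_eq, not_false_eq_true, true_and, hw]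
  refine Iff.trans ?_ (alt_iff' w x y hxy _ fun z => @decide_eq_true_iff _ (_)).symm
  rw [h, h]
  have hne : x.1 ≠ y.1 := fun k => hxy (Subtype.ext k)
  rcases edge_cases n x with ⟨i, c, a, b⟩ | ⟨i, j, k, c, a, b⟩ <;>
  rcases edge_cases n y with ⟨i', c', a', b'⟩ | ⟨i', j', k', c', a', b'⟩ <;>
  rw [c, c'] at hne <;> rw [a, b, a', b', c, c'] <;>
  simp only [Sym2.mem_iff, or_and_right, exists_or, exists_eq_left, Option.some.injEq,
    reduceCtorEq, false_or, or_false, true_or, true_iff, vi, cn]
  · rcases le_total i.val i'.val with q | q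
    · left; intro t ht; split_ifs <;> omega
    · right; intro t ht; split_ifs <;> omega
  · have := ZMod.val_lt j'
    have := ZMod.val_lt i
    constructor
    · intro q; right; intro t ht; split_ifs <;> omega
    · intro q
      by_contra q'
      rcases q with q | q
      · have k1 := q (3 * i'.val + 1) (by omega)
        have k2 := q (3 * n) le_rfl
        split_ifs at k1 k2 <;> omega
      · have k1 := q (3 * i.val + 2) (by omega)
        have k2 := q (3 * i.val) (by omega)
        split_ifs at k1 k2 <;> omega
  · have := ZMod.val_lt j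
    have := ZMod.val_lt i'
    constructor
    · intro q; left; intro t ht; split_ifs <;> omega
    · intro q
      by_contra q'
      rcases q with q | q
      · have k1 := q (3 * i'.val + 2) (by omega)
        have k2 := q (3 * i'.val) (by omega)
        split_ifs at k1 k2 <;> omega
      · have k1 := q (3 * i.val + 1) (by omega)
        have k2 := q (3 * n) le_rfl
        split_ifs at k1 k2 <;> omega
  · have := ZMod.val_lt j
    have := ZMod.val_lt j'
    have hd : i.val ≠ i'.val := fun q => hne (by
      rw [(vi i i').2 q, (vi j j').2 (by omega)])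
    constructor
    · intro q
      rcases le_total i.val i'.val with r | r
      · left; intro t ht; split_ifs <;> omega
      · right; intro t ht; split_ifs <;> omega
    · intro q
      by_contra q'
      rcases q with q | q
      · have k1 := q (3 * i'.val + 1) (by omega)
        have k2 := q (3 * i.val + 6) (by omega)
        split_ifs at k1 k2 <;> omega
      · have k1 := q (3 * i.val + 1) (by omega)
        have k2 := q (3 * i'.val + 6) (by omega)
        split_ifs at k1 k2 <;> omega

theorem result : ¬ ∃ F : Set (Σ k : ℕ, SimpleGraph (Fin k)), F.Finite ∧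
    ∀ (V : Type) [Fintype V] (G : SimpleGraph V),
      Representable G.lineGraph ↔ ∀ H ∈ F, ¬ H.2.IsContained G := by
  rintro ⟨F, hF, h⟩
  obtain ⟨m, hm⟩ := (hF.image fun H => H.1).bddAbove
  haveI : NeZero (m + 4) := ⟨by omega⟩
  have h1 := (h _ (wheel (m + 4))).not.1 (wheel_not _ (by omega))
  push Not at h1
  obtain ⟨H, hH, ⟨f⟩⟩ := h1
  have hk : H.1 ≤ m := hm ⟨H, hH, rfl⟩
  obtain ⟨v, hv⟩ : ∃ v : ZMod (m + 4), ∀ u, f u ≠ some v := by
    by_contra hn
    push Not at hn
    choose g hg using hn
    have := Fintype.card_le_of_injective g fun a b e => by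
      have := hg a
      rw [e, hg b] at this
      exact (Option.some.inj this).symm
    rw [ZMod.card, Fintype.card_fin] at this
    omega
  refine (h _ (fan (m + 4))).1 (fan_rep _) H hH ⟨⟨⟨fun u => (f u).map (· - v), ?_⟩, ?_⟩⟩
  · intro a b hab
    have k := f.toHom.map_adj hab
    have ha := hv a
    have hb := hv b
    have val1 : ∀ i : ZMod (m + 4), i + 1 ≠ v → (i + 1 - v).val = (i - v).val + 1 := by
      intro i hi
      have e : i + 1 - v = (i - v) + 1 := by ring
      have n0 : (i - v + 1).val ≠ 0 := by
        rw [Ne, ZMod.val_eq_zero, ← e, sub_eq_zero]; exact hi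
      have o : (1 : ZMod (m + 4)).val = 1 := ZMod.val_one_eq_one_mod _ |>.trans
        (Nat.mod_eq_of_lt (by omega))
      rw [e]
      rw [ZMod.val_add, o] at n0 ⊢
      have := ZMod.val_lt (i - v)
      rcases Nat.lt_or_ge ((i - v).val + 1) (m + 4) with q | q
      · exact Nat.mod_eq_of_lt q
      · exact absurd (by rw [show (i - v).val + 1 = m + 4 by omega, Nat.mod_self]) n0
    change (wheel (m + 4)).Adj (f a) (f b) at k
    change (fan (m + 4)).Adj ((f a).map (· - v)) ((f b).map (· - v))
    generalize f a = x at k ha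
    generalize f b = y at k hb
    rcases x with _ | i <;> rcases y with _ | j
    · simp at k
    · simp [fan]
    · simp [fan]
    · simp only [wheel, fromRel_adj] at k
      simp only [fan, fromRel_adj, Option.map_some, ne_eq, Option.some.injEq, sub_left_inj]
      refine ⟨by simpa using k.1, ?_⟩
      rcases k.2 with rfl | rfl
      · exact Or.inl (val1 _ (by simpa using hb))
      · exact Or.inr (val1 _ (by simpa using ha))
  · intro a b e
    exact f.injective (Option.map_injective (sub_left_injective) e)

end Pool.Agent.Results.MP_c3beeb_co.NoFinite
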